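import Pool.Agent.Helper18.SU.Goals3

/-!
SU3 E13: the one-sided case.
-/

set_option autoImplicit false

namespace Pool.Agent.Helper46.SU

open Pool.Agent.Helper18.SU Finset

private theorem mem_low' {V : Type} [Fintype V] (A : V → V → Prop) (d : Bool) (c : ℕ) (x : V) :
    x ∈ low A d c ↔ (nb A d Finset.univ x).card < c := by
  simp only [low, Finset.mem_filter, Finset.mem_univ, true_and]

private theorem mem_anc' {W : Type} [Fintype W] (r : W) (par : W → W) (sgn : W → Bool) (w : W) :
    w ∈ anc r par sgn ↔ ∀ k : ℕ, par^[k] w ≠ r → sgn (par^[k] w) = false := by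
  simp only [anc, Finset.mem_filter, Finset.mem_univ, true_and]

private theorem mem_chd' {W : Type} [Fintype W] (r : W) (par : W → W) (sgn : W → Bool) (v : W)
    (d : Bool) (c : W) : c ∈ chd r par sgn v d ↔ c ≠ r ∧ par c = v ∧ sgn c = d := by
  simp only [chd, Finset.mem_filter, Finset.mem_univ, true_and]

theorem E13 (h1 : OPV3_stmt) (h2 : OPA3_stmt) (h3 : E1B_stmt) (h4 : ARB_stmt) (h5 : COUNT_stmt)
    (h6 : GZ3_stmt) (h7 : SIZ_stmt) (h8 : DEG_stmt) (h9 : BRN_stmt) : E13_stmt := by
  intro W V _ _ _ _ A hT hN r par dep hR sgn LO hB hch s hs hbig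
  have hC : C0 = 10000000 := rfl
  obtain ⟨g1, g2, _, _, g5, g6, _, _⟩ := h8 V A hT
  obtain ⟨z1, _, z3⟩ := h7 V A hT
  obtain ⟨_, _, _, b4⟩ := h9 W r par dep hR sgn (Finset.univ \ (LO ∪ ∅)) r
  have hSc : (Finset.univ \ (LO ∪ ∅)).card = s := by
    rw [Finset.union_empty, Finset.card_sdiff_of_subset (Finset.subset_univ _), Finset.card_univ]
    omega
  rw [hSc] at b4
  set bt := (brn par sgn (Finset.univ \ (LO ∪ ∅)) r true).card with hbt
  set bf := (brn par sgn (Finset.univ \ (LO ∪ ∅)) r false).card with hbf
  by_contra hF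
  have hopv := (h1 W V A hT r r par dep hR sgn LO ∅ hB s (by rw [Finset.card_empty]; omega)).1 rfl
  have hz : ∀ z : V, LO.card + 3 * bt + C0 ≤ (nb A true Finset.univ z).card →
      (nb A false Finset.univ z).card < 3 * bf + C0 := by
    intro z hz
    by_contra hcon
    exact hF (hopv z hz (by rw [Finset.card_empty]; omega))
  obtain ⟨X, hX⟩ : ∃ X, X = low A true (LO.card + 3 * bt + C0) := ⟨_, rfl⟩
  obtain ⟨B, hBd⟩ : ∃ B, B = Finset.univ \ X := ⟨_, rfl⟩
  have hXmem : ∀ x, x ∈ X ↔ (nb A true Finset.univ x).card < LO.card + 3 * bt + C0 := by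
    intro x
    rw [hX]
    exact mem_low' _ _ _ _
  have hBmem : ∀ x, x ∈ B ↔ x ∉ X := by
    intro x
    rw [hBd, Finset.mem_sdiff]
    simp
  have hBm : ∀ x ∈ B, (nb A false Finset.univ x).card < 3 * bf + C0 := by
    intro x hx
    apply hz
    rw [hBmem, hXmem] at hx
    omega
  have hBc : B.card + 1 ≤ 2 * (3 * bf + C0) := by
    have h := z1 false (3 * bf + C0) (by omega)
    have h' : B ⊆ low A false (3 * bf + C0) := by
      intro x hx
      rw [mem_low']
      exact hBm x hx
    have := Finset.card_le_card h'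
    omega
  have hXB : X.card + B.card = Fintype.card V := by
    rw [hBd, Finset.card_sdiff_of_subset (Finset.subset_univ _), Finset.card_univ]
    have := Finset.card_le_univ X
    omega
  have hdv : LO.card ≤ (chd r par sgn r true).card := by
    apply Finset.card_le_card
    intro c hc
    rw [mem_chd']
    exact hB.1 c hc
  obtain ⟨dv, hdve⟩ : ∃ dv, dv = (chd r par sgn r true).card := ⟨_, rfl⟩
  rw [← hdve] at hdv
  have hXle : ∀ x ∈ X, (nb A true X x).card ≤ LO.card + 3 * bt + C0 - 1 := by
    intro x hx
    have h := Finset.card_le_card (g6 true X Finset.univ x (Finset.subset_univ _))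
    rw [hXmem] at hx
    omega
  by_cases hcase : ∃ y ∈ X, dv ≤ (nb A true X y).card
  · obtain ⟨y, hy, hyd⟩ := hcase
    obtain ⟨Z, hZ, hZc, hZp⟩ := h6 V A hT X y hy (LO.card + 3 * bt + C0 - 1) (4 * s + 4 * C0)
      (3 * s + C0) hXle (by omega) (by omega) (by omega)
    have hy2 := g2 X y hy
    have hy3 := hXle y hy
    exact hF (h2 W V A hT r r par dep hR sgn LO ∅ hB s (by rw [Finset.card_empty]; omega) X y hy
      (by rw [← hdve]; exact hyd) (by omega) (Or.inl rfl) Z hZ (by omega) hZp)
  · push Not at hcase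
    have hXc : X.card ≤ 2 * (dv - 1) + 1 := g5 true X (dv - 1) (fun x hx => by
      have := hcase x hx
      omega)
    have hcount := (h5 W r r par dep hR sgn LO ∅ hB hch).2
    rw [← hdve] at hcount
    have hanc : (anc r par sgn).card + LO.card ≤ Fintype.card W := by
      have hd : Disjoint (anc r par sgn) LO := by
        rw [Finset.disjoint_left]
        intro w hw hw'
        rw [mem_anc'] at hw
        have h := hw 0 (hB.1 w hw').1
        rw [Function.iterate_zero, id, (hB.1 w hw').2.2] at h
        exact Bool.noConfusion h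
      rw [← Finset.card_union_of_disjoint hd]
      exact Finset.card_le_univ _
    have hpr : ∀ k : ℕ, par^[k] r = r := by
      intro k
      exact Function.iterate_fixed hR.2.1 k
    obtain ⟨f₀, hf₀⟩ := h4 W V A hT r par dep hR sgn false (anc r par sgn)
      (by rw [mem_anc']; intro k hk; exact absurd (hpr k) hk)
      (by
        intro v hv
        rw [mem_anc'] at hv ⊢
        intro k
        rw [← Function.iterate_succ_apply]
        exact hv (k + 1))
      (by
        intro v hv hvr
        rw [mem_anc'] at hv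
        exact hv 0 hvr)
      B (by omega)
    refine hF (h3 W V A hT r par dep hR sgn LO hB s hs B X ?_ ?_ ?_ f₀ hf₀)
    · rw [Finset.disjoint_left]
      intro x hx hx'
      exact (hBmem x).1 hx hx'
    · intro x hx
      have h1' := g1 X x ((hBmem x).1 hx)
      have h2' := hBm x hx
      have h3' := Finset.card_le_card (g6 false X Finset.univ x (Finset.subset_univ _))
      omega
    · intro x hx
      have h2' := hBm x hx
      have h3' := z3 x
      omega

end Pool.Agent.Helper46.SU
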