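import Pool.Agent.Helper18.SU.Goals3

/-!
SU3 DSJ3: the out-branches at `v` and the in-branches at `u` are disjoint.
-/

set_option autoImplicit false

namespace Pool.Agent.Helper46.SU

open Pool.Agent.Helper18.SU

private theorem adj_iff {W : Type} {D : W → W → Prop} {v : W} {par : W → W} {sgn : W → Bool}
    (h : Rep D v par sgn) (x y : W) :
    (D x y ∨ D y x) ↔ ((y ≠ v ∧ par y = x) ∨ (x ≠ v ∧ par x = y)) := by
  rw [h x y, h y x]
  cases hx : sgn x <;> cases hy : sgn y <;> simp <;> tauto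

private theorem mem_brn' {W : Type} [Fintype W] (par : W → W) (sgn : W → Bool) (S : Finset W)
    (c : W) (d : Bool) (w : W) : w ∈ brn par sgn S c d ↔
      w ∈ S ∧ ∃ c', c' ≠ c ∧ par c' = c ∧ sgn c' = d ∧ w ∈ dsc par c' := by
  simp only [brn, Finset.mem_filter]

private theorem mem_dsc' {W : Type} [Fintype W] (par : W → W) (c w : W) :
    w ∈ dsc par c ↔ ∃ k : ℕ, par^[k] w = c := by
  simp [dsc]

theorem DSJ3 (h1 : DSC_stmt) : DSJ3_stmt := by
  classical
  intro W _ _ D hD v u huv par dep sgn hR hRep hpath par' dep' sgn' hR' hRep' S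
  obtain ⟨_, d2, _, d4, d5, _, _⟩ := h1 W v par dep hR
  obtain ⟨_, e2, e3, e4, _, _, _⟩ := h1 W u par' dep' hR'
  rw [Finset.disjoint_left]
  intro w hw hw'
  obtain ⟨_, c, hcv, hpc, hsc, hwc⟩ := (mem_brn' _ _ _ _ _ _).1 hw
  obtain ⟨_, c', hcu', hpc', hsc', hwc'⟩ := (mem_brn' _ _ _ _ _ _).1 hw'
  -- (a)
  have ha : ∀ x y, x ∈ dsc par' c' → y ∉ dsc par' c' → (D x y ∨ D y x) → x = c' ∧ y = u := by
    intro x y hx hy hadj
    have hadj' : (Op D x y ∨ Op D y x) := by
      rcases hadj with h | h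
      · exact Or.inr h
      · exact Or.inl h
    rcases (adj_iff hRep' x y).1 hadj' with ⟨_, h⟩ | ⟨_, h⟩
    · exact absurd (e3 c' y (by rw [h]; exact hx)) hy
    · by_cases hxc : x = c'
      · refine ⟨hxc, ?_⟩
        rw [← h, hxc, hpc']
      · exact absurd (by rw [← h]; exact e2 c' x hx hxc) hy
  -- (b)
  have hb : u ∉ dsc par c := by
    intro h
    obtain ⟨k, hk⟩ := (mem_dsc' _ _ _).1 h
    have := hpath k (by rw [hk]; exact hcv)
    rw [hk, hsc] at this
    exact Bool.noConfusion this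
  have hv : v ∉ dsc par c := by
    intro h
    have := d4 c v h (fun h => hcv h.symm)
    rw [hR.1] at this
    exact Nat.not_lt_zero _ this
  -- (c)
  have hc : ∀ j x, par^[j] x = c → x ∈ dsc par' c' → c ∈ dsc par' c' := by
    intro j
    induction j with
    | zero => intro x hx hx'; rw [← hx]; exact hx'
    | succ j ih =>
      intro x hx hx'
      by_cases hxc : x = c
      · rw [← hxc]; exact hx'
      · have hxd : x ∈ dsc par c := by
          exact (mem_dsc' _ _ _).2 ⟨j + 1, hx⟩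
        have hxv : x ≠ v := fun h => hv (h ▸ hxd)
        have hpx : par x ∈ dsc par c := d2 c x hxd hxc
        have hpu : par x ≠ u := fun h => hb (h ▸ hpx)
        apply ih (par x)
        · rw [← Function.iterate_succ_apply]; exact hx
        · by_contra hcon
          exact hpu (ha x (par x) hx' hcon ((adj_iff hRep x (par x)).2 (Or.inr ⟨hxv, rfl⟩))).2
  have hcc : c ∈ dsc par' c' := by
    have h := hwc
    obtain ⟨k, hk⟩ := (mem_dsc' _ _ _).1 h
    exact hc k w hk hwc'
  have hvc : v ∈ dsc par' c' := by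
    by_contra hcon
    exact huv (ha c v hcc hcon ((adj_iff hRep c v).2 (Or.inr ⟨hcv, hpc⟩))).2.symm
  -- (d)
  have huc : u ∉ dsc par' c' := by
    intro h
    have := e4 c' u h (fun h => hcu' h.symm)
    rw [hR'.1] at this
    exact Nat.not_lt_zero _ this
  have hex : ∃ k, par^[k] u ∈ dsc par' c' := by
    have h := d5 u
    obtain ⟨k, hk⟩ := (mem_dsc' _ _ _).1 h
    exact ⟨k, by rw [hk]; exact hvc⟩
  have hf := Nat.find_spec hex
  have hf0 : Nat.find hex ≠ 0 := by
    intro h
    rw [h] at hf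
    exact huc hf
  obtain ⟨j, hj⟩ := Nat.exists_eq_succ_of_ne_zero hf0
  have hjn : par^[j] u ∉ dsc par' c' := Nat.find_min hex (by omega)
  rw [hj, Nat.succ_eq_add_one, Function.iterate_succ_apply'] at hf
  have hxv : par^[j] u ≠ v := fun h => hjn (h ▸ hvc)
  obtain ⟨h3, h4⟩ := ha _ _ hf hjn ((adj_iff hRep _ _).2 (Or.inl ⟨hxv, rfl⟩))
  rw [h4] at h3
  have hsu : sgn u = false := hpath 0 (by simpa using huv)
  have hDu : D u c' := (hRep u c').2 (Or.inr ⟨huv, h3, hsu⟩)
  have hDc : Op D u c' := (hRep' u c').2 (Or.inl ⟨hcu', hpc', hsc'⟩)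
  exact hD u c' hDu hDc

end Pool.Agent.Helper46.SU
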